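import Pool.Agent.RKC.Size

/-!
MP_b8abfb_lc. The game against a clock `o` (an ordinal): starting from the empty set of vertices of
`G`, the opponent chooses a smaller ordinal (the first one below `o`) and a subset `s` of the finite
set `F` of the vertices built so far, and the player answers with a vertex outside `F` joined to the
vertices of `F` in `s` by edges of colour `c1` and to the other vertices of `F` by non-edges of
colour `c0`. The empty set is `o`-good if the player has a winning strategy.

* With the clock `|G|⁺` this is the same as an induced copy of the random graph with all edges of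
  colour `c1` and all non-edges of colour `c0`; so Q1 asks for a graph `G` such that for all
  colourings the empty set is `|G|⁺`-good for some pair of colours.
* We prove that there are arbitrarily large cardinals `κ` and graphs `G` on `κ` vertices such that
  for all colourings the empty set is `κ`-good for some pair of colours; and for the same pair of
  colours all graphs with one persistent type and fewer than `κ` vertices have homogeneous induced
  copies. In particular one graph and one pair of colours serve all finite graphs, and the disjoint
  union of all finite graphs.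

The definitions `HasType`, `Realizes`, `Good`, `IsOneType` are in `Pool/Agent/RKC/Defs.lean`, the
definition `IsRandom` is in `Pool/Agent/RKC/Limit.lean`.
-/

set_option autoImplicit false

namespace Pool.Agent.Results.MP_b8abfb_lc.ClockSizeOfGraph

universe u

open Cardinal Order Pool.Agent.RKC

theorem result :
    (∀ (C : Type u) (lam : Cardinal.{u}), ∃ (V : Type u) (G : SimpleGraph V), lam ≤ #V ∧ ℵ₀ ≤ #V ∧
      ∀ (f : G.edgeSet → C) (g : Gᶜ.edgeSet → C), ∃ c1 c0 : C,
        Good G f g c1 c0 (#V).ord ∅ ∧
        ∀ (W : Type u) (H : SimpleGraph W), #W < #V → IsOneType H →
          ∃ p : H ↪g G, ∀ x y : W, x ≠ y → HasType G f g c1 c0 (H.Adj x y) (p x) (p y)) ∧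
    (∀ (V C : Type u) (G : SimpleGraph V) (f : G.edgeSet → C) (g : Gᶜ.edgeSet → C) (c1 c0 : C)
      (U : SimpleGraph ℕ), ℵ₀ ≤ #V → IsRandom U →
        (Good G f g c1 c0 (succ #V).ord ∅ ↔
          ∃ p : U ↪g G, ∀ a b : ℕ, a ≠ b → HasType G f g c1 c0 (U.Adj a b) (p a) (p b))) :=
  ⟨size, fun _ _ _ _ _ _ _ U hV hU => good_succ_iff hV U hU⟩

end Pool.Agent.Results.MP_b8abfb_lc.ClockSizeOfGraph
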