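import Pool.Agent.H73Ind.Ind

/-!
# MP_b8abfb_lc: a witness for the random graph is indivisible into few parts
-/

set_option autoImplicit false

namespace Pool.Agent.Results.MP_b8abfb_lc.IndivisibleGraphs

universe u v w

/-- The relation of the problem: for all colourings of the edges of `G` with colours in `Γ` and of
the non-edges with colours in `Δ` there is an induced copy of `H` in `G` all of whose edges have one
colour and all of whose non-edges have one colour. (The colourings are defined on all pairs; only
the colours of the edges under `c` and of the non-edges under `g` are used.) -/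
def Arrows {V : Type u} {W : Type v} (Γ : Type u) (Δ : Type w) (G : SimpleGraph V)
    (H : SimpleGraph W) : Prop :=
  ∀ (c : V → V → Γ) (g : V → V → Δ), (∀ x y, c x y = c y x) → (∀ x y, g x y = g y x) →
    ∃ (φ : H ↪g G) (c1 : Γ) (c0 : Δ), (∀ x y, H.Adj x y → c (φ x) (φ y) = c1) ∧
      ∀ x y, x ≠ y → ¬H.Adj x y → g (φ x) (φ y) = c0

/-- `U` is the countable random graph: for disjoint finite sets `A`, `B` infinitely many vertices
outside `A` and `B` are adjacent to all vertices of `A` and to none of `B`. -/
def IsRandomGraph (U : SimpleGraph ℕ) : Prop :=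
  ∀ A B : Finset ℕ, Disjoint A B →
    {v | v ∉ A ∧ v ∉ B ∧ (∀ a ∈ A, U.Adj v a) ∧ ∀ b ∈ B, ¬U.Adj v b}.Infinite

/-- Let `Γ` be an infinite set and `Δ` a non-empty set of colours.
(1) Let `H` be a connected graph, and `F` a graph with a symmetric colouring `d` of its pairs with
colours in `Γ` such that there is no homomorphism of `H` to the graph of the edges of `F` of one
colour. Let `f` map the vertices of `G` to the vertices of `F`, adjacent vertices to equal or
adjacent ones. If `G` has the partition property for `H`, then some fibre of `f` has it.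
(2) For `H = U` the random graph it suffices that no infinite clique of `F` has all its edges in one
colour; and (for any map `f`) that `f` has at most `2 ^ #Γ` values.
(3) The least cardinality `κ` of a graph with the partition property for `U` has cofinality greater
than `2 ^ #Γ`. -/
theorem result (Γ : Type u) (Δ : Type w) [Infinite Γ] [Nonempty Δ] :
    (∀ (V I : Type u) (W : Type v) (G : SimpleGraph V) (F : SimpleGraph I) (H : SimpleGraph W)
      (d : I → I → Γ) (f : V → I), H.Connected → (∀ i j, d i j = d j i) →
      (∀ (n : Γ) (k : W → I), ∃ x y, H.Adj x y ∧ ¬(F.Adj (k x) (k y) ∧ d (k x) (k y) = n)) →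
      (∀ x y, G.Adj x y → f x = f y ∨ F.Adj (f x) (f y)) →
      Arrows Γ Δ G H → ∃ i, Arrows Γ Δ (G.induce {v | f v = i}) H) ∧
    ∀ U : SimpleGraph ℕ, IsRandomGraph U →
      (∀ (V I : Type u) (G : SimpleGraph V) (F : SimpleGraph I) (d : I → I → Γ) (f : V → I),
        (∀ i j, d i j = d j i) →
        (¬∃ (n : Γ) (q : ℕ → I), ∀ m k, m < k → F.Adj (q m) (q k) ∧ d (q m) (q k) = n) →
        (∀ x y, G.Adj x y → f x = f y ∨ F.Adj (f x) (f y)) →
        Arrows Γ Δ G U → ∃ i, Arrows Γ Δ (G.induce {v | f v = i}) U) ∧
      (∀ (V I : Type u) (G : SimpleGraph V) (f : V → I), Cardinal.mk I ≤ 2 ^ Cardinal.mk Γ →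
        Arrows Γ Δ G U → ∃ i, Arrows Γ Δ (G.induce {v | f v = i}) U) ∧
      ∀ κ : Cardinal.{u}, IsLeast {κ | ∃ (V : Type u) (G : SimpleGraph V), Cardinal.mk V = κ ∧
        Arrows Γ Δ G U} κ → 2 ^ Cardinal.mk Γ < κ.ord.cof := by
  refine ⟨?_, ?_⟩
  · intro V I W G F H d f hH hd hno hf h
    have := hH.nonempty
    exact Pool.Agent.H73Ind.fibres hH.preconnected d hd hno f hf h
  · intro U hU
    refine ⟨?_, ?_, ?_⟩
    · intro V I G F d f hd hno hf h
      exact Pool.Agent.H73Ind.fibres_random hU d hd hno f hf h
    · intro V I G f hI h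
      exact Pool.Agent.H73Ind.parts (Pool.Agent.H73Ind.preconnected hU)
        (Pool.Agent.H73Ind.not_bip hU) hI f h
    · rintro κ ⟨⟨V, G, rfl, hG⟩, hmin⟩
      refine Pool.Agent.H73Ind.cof (Pool.Agent.H73Ind.preconnected hU)
        (Pool.Agent.H73Ind.not_bip hU) hG fun S hS hcon => ?_
      exact absurd hS (not_lt.2 (hmin ⟨S, G.induce S, rfl, hcon⟩))

end Pool.Agent.Results.MP_b8abfb_lc.IndivisibleGraphs
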