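import Pool.Agent.RKR.RMain

/-!
MP_b8abfb_lc. Graphs without an infinite path.

For every set `C` of colours and every cardinal there is one graph `G` such that for all colourings
`f` of the edges and `g` of the non-edges with colours in `C` there is one pair of colours `c1`,
`c0` such that every graph `H` of the class `ClsF` with at most that many vertices has an induced
copy in `G` with all edges of colour `c1` and all non-edges of colour `c0`. The class `ClsF`
contains all graphs without an infinite path and their complements.

`ClsF` (`Pool/Agent/RKR/ClsF.lean`) is the smallest class of sets of vertices of `H` which contains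
the empty set, with `s` every set `insert x s` (the new vertex has arbitrary neighbours in `s`) and
every set which is partitioned into blocks of the class, indexed by a well ordered set, such that
every vertex is joined to all or to none of the vertices of the later blocks. `HasRay`
(`Pool/Agent/RKR/Rayless.lean`): there is an infinite path, not necessarily induced. The definition
`HasType` is in `Pool/Agent/RKC/Defs.lean`.
-/

set_option autoImplicit false

namespace Pool.Agent.Results.MP_b8abfb_lc.RaylessGraphs

universe u

open Cardinal Pool.Agent.RKC Pool.Agent.RKR

theorem result (C K0 : Type u) :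
    (∃ (V : Type u) (G : SimpleGraph V),
      ∀ (f : G.edgeSet → C) (g : Gᶜ.edgeSet → C), ∃ c1 c0 : C,
        ∀ (W : Type u) (H : SimpleGraph W), #W ≤ #K0 → ClsF H Set.univ →
          ∃ p : H ↪g G, ∀ x y : W, x ≠ y → HasType G f g c1 c0 (H.Adj x y) (p x) (p y)) ∧
    ∀ (W : Type u) (H : SimpleGraph W), ¬ HasRay H ∨ ¬ HasRay Hᶜ → ClsF H Set.univ :=
  ⟨clsF_main C K0, fun _ H h => h.elim (clsF_of_rayless H) (clsF_of_compl_rayless H)⟩

end Pool.Agent.Results.MP_b8abfb_lc.RaylessGraphs
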