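import Pool.Agent.RKP.SumMain

/-!
MP_b8abfb_lc. Well ordered sums of countable graphs of bounded interface.

For every set `C` of colours and every cardinal there is one graph `G` such that for all colourings
`f` of the edges and `g` of the non-edges with colours in `C` and for all `k` there is one pair of
colours `c1`, `c0` such that every graph `H` with at most that many vertices, which is a well
ordered sum of countable blocks of interface at most `k`, has an induced copy in `G` with all edges
of colour `c1` and all non-edges of colour `c0`.

`SumInterface H k` (`Pool/Agent/RKP/SumEnum.lean`): the vertices of `H` are distributed over
countable blocks, the blocks are well ordered, and every finite set of vertices of a block is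
contained in a finite set `S` of vertices of this block for which all vertices outside of `S` in this
block and in the later blocks, except at most `k` vertices of this block, have the same neighbours
in `S`. With one block these are the countable graphs of interface at most `k`. Examples
(`Pool/Agent/RKP/SumEx.lean`): the locally finite graphs, of any size, in which every finite set of
vertices of a component lies in a finite set of vertices of this component with at most `k`
neighbours outside (infinite paths, ladders, finite graphs chained along a path, disjoint unions of
arbitrarily many of them), and the complements of all these graphs.

The definition `HasType` is in `Pool/Agent/RKC/Defs.lean`.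
-/

set_option autoImplicit false

namespace Pool.Agent.Results.MP_b8abfb_lc.SumsOfBoundedInterface

universe u

open Cardinal Pool.Agent.RKC Pool.Agent.RKP

theorem result (C K0 : Type u) : ∃ (V : Type u) (G : SimpleGraph V),
    ∀ (f : G.edgeSet → C) (g : Gᶜ.edgeSet → C) (k : ℕ), ∃ c1 c0 : C,
      ∀ (W : Type u) (H : SimpleGraph W), #W ≤ #K0 → SumInterface H k →
        ∃ p : H ↪g G, ∀ x y : W, x ≠ y → HasType G f g c1 c0 (H.Adj x y) (p x) (p y) :=
  sum_interface C K0

end Pool.Agent.Results.MP_b8abfb_lc.SumsOfBoundedInterface
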